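import Mathlib
import Pool.Agent.R223.Net.Comb

set_option autoImplicit false
open MeasureTheory Set Filter Topology Metric

namespace Pool.Agent.Results.MP_3f57e5_an.NoEnergyApproximation
open Pool.Agent.R223.NetDefs
open Pool.Agent.R223.Net (Disc load mu0 S0 S0_compact S0_len S0_sub fpos load_jd energy_S0 relaxed_mu0
  strict_gap gap seg_cont)

theorem load_var : load.totalVariation Discᶜ = 0 := by
  unfold SignedMeasure.totalVariation
  rw [load_jd]
  show (fpos + Measure.dirac (0:Pl)) Discᶜ = 0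
  rw [Measure.add_apply, add_eq_zero]
  constructor
  · exact measure_mono_null (compl_subset_compl.2 S0_sub) Pool.Agent.R223.Net.fpos_supp
  · have hm : MeasurableSet Disc := isOpen_ball.measurableSet
    rw [Measure.dirac_apply' _ hm.compl, indicator_of_notMem]
    intro h
    exact h (mem_ball_self (by norm_num))

theorem adm_S0 : Adm Disc (3 / 2) S0 := by
  refine ⟨S0_compact.isClosed, (isConnected_Icc (by norm_num)).image _ (seg_cont _ _).continuousOn, S0_sub, ?_⟩
  rw [S0_len, ← ENNReal.ofReal_one]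
  exact ENNReal.ofReal_le_ofReal (by norm_num)

/-- The energy approximation property fails: there are admissible data `Ω, f, m, L`, a relaxed
network `μ ∈ 𝓜_L` and a number `E' < 𝓔_f(μ)` such that every sequence of competitors `S_n` with
`H¹⌞S_n → μ` weakly* has energy at most `E'` for all large `n`; in particular no sequence in
`𝓐_L` converging to `μ` recovers the energy of `μ`. -/
theorem result :
    ∃ (Ω : Set Pl) (f : SignedMeasure Pl) (m L : ℝ), Ω = ball (0 : Pl) 3 ∧ f.totalVariation Ωᶜ = 0 ∧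
      0 < m ∧ 0 < L ∧ (∃ S : Set Pl, Adm Ω L S ∧ Energy Ω f m (Net S) ≠ ⊥) ∧
      ∃ (μ : Measure Pl) (E' : EReal), Relaxed Ω L μ ∧ E' < Energy Ω f m μ ∧
        (∀ S : ℕ → Set Pl, (∀ n, AdmRel Ω L (S n)) → WeakConv S μ →
          ∀ᶠ n in atTop, Energy Ω f m (Net (S n)) ≤ E') ∧
        (∀ S : ℕ → Set Pl, (∀ n, Adm Ω L (S n)) → WeakConv S μ →
          ¬ Tendsto (fun n => Energy Ω f m (Net (S n))) atTop (𝓝 (Energy Ω f m μ))) := by
  obtain ⟨u, hu, η, hη, hgap⟩ := strict_gap
  have h1 : ∀ S : ℕ → Set Pl, (∀ n, AdmRel Disc (3 / 2) (S n)) → WeakConv S mu0 →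
      ∀ᶠ n in atTop, Energy Disc load 1 (Net (S n)) ≤
        ((1 / 2 * (∫ x, ‖gradient u x‖ ^ 2) + 27 / 40 * Pool.Agent.R223.Net.T u - pair load u + η : ℝ) : EReal) :=
    fun S hS hW => gap u hu η hη S hS hW
  refine ⟨Disc, load, 1, 3 / 2, rfl, load_var, one_pos, by norm_num, ⟨S0, adm_S0, energy_S0⟩,
    mu0, _, relaxed_mu0, hgap, h1, ?_⟩
  intro S hS hW hT
  have hS' : ∀ n, AdmRel Disc (3 / 2) (S n) := fun n =>
    ⟨⟨S n, (hS n).1, (inter_eq_self_of_subset_left (hS n).2.2.1).symm⟩, (hS n).2.2.2⟩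
  exact absurd (le_of_tendsto hT (h1 S hS' hW)) (not_le.2 hgap)

end Pool.Agent.Results.MP_3f57e5_an.NoEnergyApproximation
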